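import Pool.Agent.Y6.M.Stm

/-!
# Project EM: lower bound of the invariant of a pair of the chain
-/

open Set Filter Topology
open scoped ComplexConjugate

set_option autoImplicit false

namespace Pool.Agent.Y681.EM.QINV

open Pool.Agent.Y6.M

theorem al_ge {α : ℕ → ℝ} {G : ℕ → ℂ} {b d : ℕ → ℝ} (h : Chn α G b d) : ∀ n, 10 ^ 40 ≤ α n := by
  intro n
  induction n with
  | zero => exact h.A0
  | succ n ih =>
    rw [h.step]
    have h1 : (1 : ℝ) ≤ α n := le_trans (by norm_num) ih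
    exact ih.trans (le_self_pow₀ h1 (by omega))

theorem Uth_sq {α : ℕ → ℝ} (n : ℕ) (h : 0 ≤ α n) : Uth α n ^ 2 = (α n)⁻¹ := by
  unfold Uth
  rw [inv_pow, Real.sq_sqrt h]

theorem Uth_nonneg (α : ℕ → ℝ) (n : ℕ) : 0 ≤ Uth α n := inv_nonneg.2 (Real.sqrt_nonneg _)

theorem Uth_le_one {α : ℕ → ℝ} (n : ℕ) (h : 1 ≤ α n) : Uth α n ≤ 1 := by
  unfold Uth
  exact inv_le_one_of_one_le₀ (Real.one_le_sqrt.2 h)

/-- the cancellation -/
theorem cancel (X Y Z G : ℂ) (b d : ℝ) :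
    d * (conj X * (conj G * (b : ℝ) * Y * conj Z)).re -
      b * (conj Y * (G * (d : ℝ) * Z * X)).re = 0 := by
  have h : (conj X * (conj G * (b : ℝ) * Y * conj Z)).re = b * (conj Y * (G * Z * X)).re := by
    have e : conj X * (conj G * (b : ℝ) * Y * conj Z) = (b : ℝ) * conj (conj Y * (G * Z * X)) := by
      simp only [map_mul, Complex.conj_conj]
      ring
    rw [e, Complex.re_ofReal_mul, Complex.conj_re]
  have h2 : (conj Y * (G * (d : ℝ) * Z * X)).re = d * (conj Y * (G * Z * X)).re := by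
    have e : conj Y * (G * (d : ℝ) * Z * X) = (d : ℝ) * (conj Y * (G * Z * X)) := by ring
    rw [e, Complex.re_ofReal_mul]
  rw [h, h2]
  ring

theorem re_le (z w : ℂ) : |(conj z * w).re| ≤ ‖z‖ * ‖w‖ := by
  refine (Complex.abs_re_le_norm _).trans ?_
  rw [norm_mul, Complex.norm_conj]

/-- **QINV** -/
theorem t_QINV : S_QINV := by
  intro α G b d hC n θ x y f g hθ0 hθ hS hx0 hy0 hU hU2 t ht
  obtain ⟨a, ha⟩ : ∃ a, a = α (n + 1) := ⟨_, rfl⟩
  have hage : 10 ^ 40 ≤ a := ha ▸ al_ge hC (n + 1)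
  have ha1 : (1 : ℝ) ≤ a := le_trans (by norm_num) hage
  have ha0 : (0 : ℝ) < a := by linarith
  have hd := hC.dpos n
  have hbd := hC.bd n
  have hdb := hC.db n
  have hb0 : 0 < b n := by linarith
  have hd1 := hC.dpos (n + 1)
  have hdb1 := hC.db (n + 1)
  have hα2 : α (n + 2) = a ^ (2 * (n + 1) + 8) := by
    rw [ha]
    exact hC.step (n + 1)
  have hα2p : 0 < α (n + 2) := by rw [hα2]; positivity
  obtain ⟨φ, hφ⟩ : ∃ φ, φ = φc α (n + 1) := ⟨_, rfl⟩
  have hφe : φ = (a ^ (4 * (n + 1) + 8))⁻¹ := by rw [hφ, ha]; rfl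
  have hφ0 : 0 ≤ φ := by rw [hφe]; positivity
  obtain ⟨u, hu⟩ : ∃ u, u = (α (n + 2))⁻¹ := ⟨_, rfl⟩
  have hu0 : 0 ≤ u := by rw [hu]; positivity
  -- the derivative
  have hder : ∀ τ ∈ Icc (0 : ℝ) θ, HasDerivWithinAt
      (fun τ => d n * ‖x (n + 1) τ‖ ^ 2 - b n * ‖y n τ‖ ^ 2)
      (d n * (2 * (conj (x (n + 1) τ) * (cX G b d (fun m => x m τ) (fun m => y m τ) (n + 1) +
        f (n + 1) τ)).re) - b n * (2 * (conj (y n τ) * (cY G d (fun m => x m τ) n + g n τ)).re))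
      (Icc 0 θ) τ := by
    intro τ hτ
    have h1 := (hS.dx (n + 1) le_rfl τ hτ).norm_sq
    have h2 := (hS.dy n (Nat.lt_succ_self n) τ hτ).norm_sq
    rw [Complex.inner, mul_comm (cX G b d (fun m => x m τ) (fun m => y m τ) (n + 1) +
      f (n + 1) τ)] at h1
    rw [Complex.inner, mul_comm (cY G d (fun m => x m τ) n + g n τ)] at h2
    exact (h1.const_mul (d n)).sub (h2.const_mul (b n))
  -- the bound of the derivative
  have hbound : ∀ τ ∈ Icc (0 : ℝ) θ,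
      ‖(d n * (2 * (conj (x (n + 1) τ) * (cX G b d (fun m => x m τ) (fun m => y m τ) (n + 1) +
        f (n + 1) τ)).re) - b n * (2 * (conj (y n τ) * (cY G d (fun m => x m τ) n + g n τ)).re))‖ ≤
      d n * (12 * (a * u) + 6 * φ) := by
    intro τ hτ
    have k1 := hS.pf (n + 1) τ hτ
    have k2 := hS.pg n τ hτ
    rw [← hφ] at k1 k2
    obtain ⟨k3, k4⟩ := hU τ hτ
    obtain ⟨k5, k6⟩ := hU2 τ hτ
    have hU1 : Uth α (n + 1) ≤ 1 := Uth_le_one _ (ha ▸ ha1)
    have k3' := k3.trans hU1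
    have k4' := k4.trans hU1
    have hc := cancel (x (n + 1) τ) (y n τ) (x n τ) (G n) (b n) (d n)
    obtain ⟨E, hE⟩ : ∃ E : ℂ, E = conj (G (n + 1)) * ((b (n + 1) + d (n + 1) : ℝ) : ℂ) *
      y (n + 1) τ * conj (x (n + 2) τ) := ⟨_, rfl⟩
    have hEn : ‖E‖ ≤ 6 * (a * u) := by
      have e1 : ‖E‖ = ‖G (n + 1)‖ * (b (n + 1) + d (n + 1)) * (‖y (n + 1) τ‖ * ‖x (n + 2) τ‖) := by
        rw [hE, norm_mul, norm_mul, norm_mul, Complex.norm_conj, Complex.norm_conj,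
          Complex.norm_real, Real.norm_eq_abs, abs_of_pos (by linarith)]
        ring
      have e2 : ‖G (n + 1)‖ * (b (n + 1) + d (n + 1)) ≤ 6 * a := by
        have h3 := hC.hi (n + 1)
        rw [← ha] at h3
        have h4 : ‖G (n + 1)‖ * d (n + 1) ≤ ‖G (n + 1)‖ * b (n + 1) :=
          mul_le_mul_of_nonneg_left hdb1 (norm_nonneg _)
        linarith
      have e3 : ‖y (n + 1) τ‖ * ‖x (n + 2) τ‖ ≤ u := by
        rw [hu, ← Uth_sq (n + 2) hα2p.le, sq]
        exact mul_le_mul k6 k5 (norm_nonneg _) (Uth_nonneg _ _)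
      rw [e1]
      calc ‖G (n + 1)‖ * (b (n + 1) + d (n + 1)) * (‖y (n + 1) τ‖ * ‖x (n + 2) τ‖)
          ≤ (6 * a) * u := mul_le_mul e2 e3 (by positivity) (by positivity)
        _ = 6 * (a * u) := by ring
    have eX : cX G b d (fun m => x m τ) (fun m => y m τ) (n + 1) =
        conj (G n) * (b n : ℝ) * y n τ * conj (x n τ) - E := by
      rw [hE]
      rfl
    have eY : cY G d (fun m => x m τ) n = G n * (d n : ℝ) * x n τ * x (n + 1) τ := rfl
    have e0 : (d n * (2 * (conj (x (n + 1) τ) * (cX G b d (fun m => x m τ) (fun m => y m τ) (n + 1) +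
        f (n + 1) τ)).re) - b n * (2 * (conj (y n τ) * (cY G d (fun m => x m τ) n + g n τ)).re)) =
        d n * (2 * (conj (x (n + 1) τ) * (f (n + 1) τ - E)).re) -
          b n * (2 * (conj (y n τ) * g n τ).re) := by
      rw [eX, eY]
      have s1 : conj (x (n + 1) τ) * (conj (G n) * (b n : ℝ) * y n τ * conj (x n τ) - E +
        f (n + 1) τ) = conj (x (n + 1) τ) * (conj (G n) * (b n : ℝ) * y n τ * conj (x n τ)) +
          conj (x (n + 1) τ) * (f (n + 1) τ - E) := by ring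
      have s2 : conj (y n τ) * (G n * (d n : ℝ) * x n τ * x (n + 1) τ + g n τ) =
        conj (y n τ) * (G n * (d n : ℝ) * x n τ * x (n + 1) τ) + conj (y n τ) * g n τ := by ring
      rw [s1, s2, Complex.add_re, Complex.add_re]
      linear_combination 2 * hc
    rw [e0, Real.norm_eq_abs]
    have r1 : |(conj (x (n + 1) τ) * (f (n + 1) τ - E)).re| ≤ φ + 6 * (a * u) := by
      refine (re_le _ _).trans ?_
      have : ‖f (n + 1) τ - E‖ ≤ φ + 6 * (a * u) := (norm_sub_le _ _).trans (add_le_add k1 hEn)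
      calc ‖x (n + 1) τ‖ * ‖f (n + 1) τ - E‖ ≤ 1 * (φ + 6 * (a * u)) :=
            mul_le_mul k3' this (norm_nonneg _) zero_le_one
        _ = _ := one_mul _
    have r2 : |(conj (y n τ) * g n τ).re| ≤ φ := by
      refine (re_le _ _).trans ?_
      calc ‖y n τ‖ * ‖g n τ‖ ≤ 1 * φ := mul_le_mul k4' k2 (norm_nonneg _) zero_le_one
        _ = _ := one_mul _
    calc |d n * (2 * (conj (x (n + 1) τ) * (f (n + 1) τ - E)).re) -
          b n * (2 * (conj (y n τ) * g n τ).re)|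
        ≤ |d n * (2 * (conj (x (n + 1) τ) * (f (n + 1) τ - E)).re)| +
          |b n * (2 * (conj (y n τ) * g n τ).re)| := abs_sub _ _
      _ = d n * (2 * |(conj (x (n + 1) τ) * (f (n + 1) τ - E)).re|) +
          b n * (2 * |(conj (y n τ) * g n τ).re|) := by
          rw [abs_mul, abs_mul, abs_mul, abs_mul, abs_of_pos hd, abs_of_pos hb0, abs_two]
      _ ≤ d n * (2 * (φ + 6 * (a * u))) + (2 * d n) * (2 * φ) := by gcongr
      _ = d n * (12 * (a * u) + 6 * φ) := by ring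
  have hmv := Convex.norm_image_sub_le_of_norm_hasDerivWithin_le hder hbound (convex_Icc 0 θ)
    (left_mem_Icc.2 hθ0) ht
  -- the numbers
  have hnum : 60 * (12 * (a * u) + 6 * φ) ≤ εc α (n + 1) ^ 2 / 2 := by
    have hε : εc α (n + 1) ^ 2 = (a ^ (2 * n + 4))⁻¹ := by
      unfold εc
      rw [← ha, inv_pow, ← pow_mul]
      congr 2
      ring
    have h5 : (2160 : ℝ) ≤ a ^ 5 := by
      calc (2160 : ℝ) ≤ (10 ^ 40) ^ 5 := by norm_num
        _ ≤ a ^ 5 := pow_le_pow_left₀ (by norm_num) hage 5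
    have h5i : (a ^ 5)⁻¹ ≤ 1 / 2160 := by
      rw [one_div]
      exact inv_anti₀ (by norm_num) h5
    have e1 : a * u = (a ^ (2 * n + 4))⁻¹ * (a ^ 5)⁻¹ := by
      rw [hu, hα2, show 2 * (n + 1) + 8 = (2 * n + 4) + 5 + 1 by ring, pow_succ, pow_add]
      field_simp
      ring
    have e2 : φ ≤ (a ^ (2 * n + 4))⁻¹ * (a ^ 5)⁻¹ := by
      rw [hφe, ← mul_inv, ← pow_add]
      refine inv_anti₀ (by positivity) (pow_le_pow_right₀ ha1 (by omega))
    have hw : 0 ≤ (a ^ (2 * n + 4))⁻¹ := by positivity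
    have e3 : (a ^ (2 * n + 4))⁻¹ * (a ^ 5)⁻¹ ≤ (a ^ (2 * n + 4))⁻¹ * (1 / 2160) :=
      mul_le_mul_of_nonneg_left h5i hw
    rw [hε, e1]
    linarith
  have hQ0 : d n * ‖x (n + 1) 0‖ ^ 2 - b n * ‖y n 0‖ ^ 2 = d n * εc α (n + 1) ^ 2 := by
    rw [hx0, hy0, norm_zero, Complex.norm_real, Real.norm_eq_abs, sq_abs]
    have : x0 α (n + 1) = εc α (n + 1) := rfl
    rw [this]
    ring
  have ht' : ‖t - 0‖ ≤ 60 := by
    rw [sub_zero, Real.norm_eq_abs, abs_of_nonneg ht.1]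
    exact ht.2.trans hθ
  have hK0 : 0 ≤ d n * (12 * (a * u) + 6 * φ) := by positivity
  have hfin : ‖(d n * ‖x (n + 1) t‖ ^ 2 - b n * ‖y n t‖ ^ 2) -
      (d n * ‖x (n + 1) 0‖ ^ 2 - b n * ‖y n 0‖ ^ 2)‖ ≤ d n * (εc α (n + 1) ^ 2 / 2) := by
    refine hmv.trans ?_
    calc d n * (12 * (a * u) + 6 * φ) * ‖t - 0‖ ≤ d n * (12 * (a * u) + 6 * φ) * 60 :=
          mul_le_mul_of_nonneg_left ht' hK0
      _ = d n * (60 * (12 * (a * u) + 6 * φ)) := by ring
      _ ≤ _ := mul_le_mul_of_nonneg_left hnum hd.le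
  rw [hQ0, Real.norm_eq_abs] at hfin
  have := (abs_le.1 hfin).1
  linarith

end Pool.Agent.Y681.EM.QINV
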